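import Pool.Agent.H74.BTL.Targets

/-! Row DEC of `btl_modules`: the decorrelation lemma. -/

set_option autoImplicit false

open scoped ENNReal RealInnerProductSpace
open Filter Topology
open Pool.Agent.H74.BTL

universe u

namespace Pool.Agent.H79.BTL

lemma pr_mem {G : Type u} [Group G] {J : Type} (t : J → G) (H : Subgroup G)
    (ht : ∀ j, t j ∈ H) : ∀ w : List J, pr t w ∈ H
  | [] => by
    rw [pr_nil]
    exact H.one_mem
  | j :: w => by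
    rw [pr_cons]
    exact H.mul_mem (ht j) (pr_mem t H ht w)

lemma EE_mul {J : Type} [Fintype J] (n : ℕ) (c : ℝ) (f : List J → ℝ) :
    EE n (fun w => c * f w) = c * EE n f := EE_smul n c f

/-- the inequality for one translate -/
lemma one_term {G : Type u} [Group G] (g : G) (β U V : L2 G) (h : β = U + V) (e : ℝ) (he : 0 < e) :
    |⟪β, rt g β⟫| ≤ |⟪U, rt g U⟫| + (‖V‖ ^ 2 / e + e / 2 * ‖β‖ ^ 2 + e / 2 * ‖U‖ ^ 2) := by
  have h1 : (⟪β, rt g β⟫ : ℝ) = ⟪U, rt g U⟫ + ⟪U, rt g V⟫ + ⟪V, rt g β⟫ := by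
    have h2 : (⟪β, rt g β⟫ : ℝ) = ⟪U, rt g β⟫ + ⟪V, rt g β⟫ := by
      conv_lhs => rw [h]
      rw [inner_add_left, ← h]
    have h3 : (⟪U, rt g β⟫ : ℝ) = ⟪U, rt g U⟫ + ⟪U, rt g V⟫ := by
      rw [h, map_add, inner_add_right]
    rw [h2, h3]
  have h4 : |(⟪U, rt g V⟫ : ℝ)| ≤ ‖U‖ * ‖V‖ := by
    have := abs_real_inner_le_norm U (rt g V)
    rwa [norm_rt] at this
  have h5 : |(⟪V, rt g β⟫ : ℝ)| ≤ ‖V‖ * ‖β‖ := by
    have := abs_real_inner_le_norm V (rt g β)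
    rwa [norm_rt] at this
  have h6 : |(⟪β, rt g β⟫ : ℝ)| ≤ |(⟪U, rt g U⟫ : ℝ)| + |(⟪U, rt g V⟫ : ℝ)| + |(⟪V, rt g β⟫ : ℝ)| := by
    rw [h1]
    exact (abs_add_le _ _).trans (add_le_add_left (abs_add_le _ _) _)
  have h7 : ∀ x y : ℝ, x * y ≤ x ^ 2 / e / 2 + e / 2 * y ^ 2 := by
    intro x y
    have h8 : x ^ 2 / e / 2 + e / 2 * y ^ 2 - x * y = (x - e * y) ^ 2 / (2 * e) := by
      field_simp
      ring
    have h9 : 0 ≤ (x - e * y) ^ 2 / (2 * e) := by positivity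
    linarith
  have h10 := h7 ‖V‖ ‖β‖
  have h11 := h7 ‖V‖ ‖U‖
  have h12 : ‖V‖ ^ 2 / e / 2 + ‖V‖ ^ 2 / e / 2 = ‖V‖ ^ 2 / e := by ring
  have h13 : ‖U‖ * ‖V‖ = ‖V‖ * ‖U‖ := mul_comm _ _
  linarith

theorem pf_DEC (h1 : T_CRS.{u}) (h2 : T_VAR.{u}) (h3 : T_CCL.{u}) (h4 : T_TOR.{u})
    (h5 : T_CUT.{u}) (h6 : T_WSS.{u}) : T_DEC.{u} := by
  classical
  intro G _ K J _ _ t r m hS b hb hK hsum
  by_contra hne
  push Not at hne
  obtain ⟨j0, hj0⟩ := hne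
  have hN : (0 : ℝ) < Fintype.card J := Nat.cast_pos.2 Fintype.card_pos
  have hm : (0 : ℝ) < m := Nat.cast_pos.2 hS.m0
  obtain ⟨ζ, hζ⟩ : ∃ ζ : J → L2 G, ζ = fun j => b (t j) := ⟨_, rfl⟩
  have hSpos : 0 < ∑ j, ‖ζ j‖ ^ 2 := by
    refine Finset.sum_pos' (fun j _ => sq_nonneg _) ⟨j0, Finset.mem_univ _, ?_⟩
    rw [hζ]
    have := norm_pos_iff.2 hj0
    positivity
  obtain ⟨s2, hs2⟩ : ∃ s2 : ℝ, s2 = (Fintype.card J : ℝ)⁻¹ * ∑ j, ‖ζ j‖ ^ 2 := ⟨_, rfl⟩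
  have hs2pos : 0 < s2 := by
    rw [hs2]
    positivity
  obtain ⟨e, he⟩ : ∃ e : ℝ, e = 1 / (8 * m) := ⟨_, rfl⟩
  have hepos : 0 < e := by
    rw [he]
    positivity
  have hme : m * e = 1 / 8 := by
    rw [he]
    field_simp
  obtain ⟨B, ξ, hξ, hcut⟩ := h5 G J ζ (e ^ 2 * s2 * Fintype.card J) (by positivity)
  obtain ⟨η, hη⟩ : ∃ η : J → L2 G, η = fun j => ζ j - ξ j := ⟨_, rfl⟩
  have hζ0 : ∑ j, ζ j = 0 := by rw [hζ]; exact hsum
  have hξ0 : ∑ j, ξ j = 0 := by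
    ext x
    rw [lp.coeFn_sum, Finset.sum_apply]
    simp only [hξ]
    by_cases hx : x ∈ B
    · simp only [if_pos hx]
      have := congrArg (fun f : L2 G => (f : G → ℝ) x) hζ0
      simp only [lp.coeFn_sum, Finset.sum_apply] at this
      exact this
    · simp only [if_neg hx, Finset.sum_const_zero]
      rfl
  have hη0 : ∑ j, η j = 0 := by
    rw [hη]
    simp only [Finset.sum_sub_distrib, hζ0, hξ0, sub_zero]
  have hξle : ∀ j, ‖ξ j‖ ^ 2 ≤ ‖ζ j‖ ^ 2 := by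
    intro j
    rw [norm_sq_eq, norm_sq_eq]
    refine Summable.tsum_le_tsum (fun x => ?_) (summable_sq _) (summable_sq _)
    rw [hξ]
    split_ifs
    · exact le_rfl
    · rw [zero_pow two_ne_zero]
      exact sq_nonneg _
  have hadd : (fun j => ξ j + η j) = ζ := by
    funext j
    rw [hη]
    show ξ j + (ζ j - ξ j) = ζ j
    abel
  have hvζ : ∀ n, EE n (fun w => ‖WS t ζ w‖ ^ 2) = n * s2 := by
    intro n
    rw [hs2]
    exact h2 G J t ζ hζ0 n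
  have hvξ : ∀ n, EE n (fun w => ‖WS t ξ w‖ ^ 2) ≤ n * s2 := by
    intro n
    rw [h2 G J t ξ hξ0 n, hs2]
    have := Finset.sum_le_sum fun j (_ : j ∈ Finset.univ) => hξle j
    gcongr
  have hvη : ∀ n, EE n (fun w => ‖WS t η w‖ ^ 2) ≤ n * (e ^ 2 * s2) := by
    intro n
    rw [h2 G J t η hη0 n]
    have h7 : (Fintype.card J : ℝ)⁻¹ * ∑ j, ‖η j‖ ^ 2 ≤ e ^ 2 * s2 := by
      rw [inv_mul_le_iff₀ hN, hη]
      calc _ ≤ e ^ 2 * s2 * Fintype.card J := hcut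
        _ = _ := mul_comm _ _
    exact mul_le_mul_of_nonneg_left h7 (Nat.cast_nonneg n)
  obtain ⟨C, hC⟩ := h1 G K J t r m hS B ξ (fun j x hx => by rw [hξ, if_neg hx])
  have hpt : ∀ w : List J, ‖WS t ζ w‖ ^ 2 ≤
      ∑ k ∈ Finset.range m,
        ind (pr t w ^ k ∉ K) * |⟪WS t ξ w, rt (pr t w ^ k) (WS t ξ w)⟫| +
      m * (e⁻¹ * ‖WS t η w‖ ^ 2 + (e / 2 * ‖WS t ζ w‖ ^ 2 + e / 2 * ‖WS t ξ w‖ ^ 2)) := by
    intro w
    have h7 : b (pr t w) = WS t ζ w := by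
      rw [hζ]
      exact h3 G J t b hb w
    have h8 : WS t ζ w = WS t ξ w + WS t η w := by
      rw [← (h6 G J t ξ η).2 w, hadd]
    have h9 := h4 G K b m (pr t w) hb hS.m0 (hS.tor _)
      (hK _ (pr_mem t _ hS.mem w))
    rw [h7] at h9
    refine h9.trans ?_
    rw [Finset.sum_filter]
    have h10 : (m : ℝ) * (e⁻¹ * ‖WS t η w‖ ^ 2 + (e / 2 * ‖WS t ζ w‖ ^ 2 + e / 2 * ‖WS t ξ w‖ ^ 2))
        = ∑ k ∈ Finset.range m, (e⁻¹ * ‖WS t η w‖ ^ 2 +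
          (e / 2 * ‖WS t ζ w‖ ^ 2 + e / 2 * ‖WS t ξ w‖ ^ 2)) := by
      rw [Finset.sum_const, Finset.card_range, nsmul_eq_mul]
    rw [h10, ← Finset.sum_add_distrib]
    refine Finset.sum_le_sum fun k _ => ?_
    have h11 : 0 ≤ e⁻¹ * ‖WS t η w‖ ^ 2 +
          (e / 2 * ‖WS t ζ w‖ ^ 2 + e / 2 * ‖WS t ξ w‖ ^ 2) := by positivity
    by_cases h12 : pr t w ^ k ∉ K
    · rw [if_pos h12, ind_true h12, one_mul]
      have h13 := one_term (pr t w ^ k) _ _ _ h8 e hepos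
      calc _ ≤ _ := h13
        _ = _ := by
          rw [div_eq_inv_mul, add_assoc (e⁻¹ * _)]
    · rw [if_neg h12, ind_false h12, zero_mul, zero_add]
      exact h11
  have hmean : ∀ n : ℕ, (n : ℝ) * s2 ≤ m * C + (1 / 4) * (n * s2) := by
    intro n
    have h7 := EE_mono n fun w _ => hpt w
    rw [hvζ, EE_add, EE_sum, EE_mul, EE_add, EE_add, EE_mul, EE_mul, EE_mul, hvζ] at h7
    have h8 : ∑ k ∈ Finset.range m, EE n (fun w =>
        ind (pr t w ^ k ∉ K) * |⟪WS t ξ w, rt (pr t w ^ k) (WS t ξ w)⟫|) ≤ m * C := by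
      calc _ ≤ ∑ k ∈ Finset.range m, C := Finset.sum_le_sum fun k _ => hC n k
        _ = m * C := by rw [Finset.sum_const, Finset.card_range, nsmul_eq_mul]
    have h9 : (m : ℝ) * (e⁻¹ * EE n (fun w => ‖WS t η w‖ ^ 2) +
        (e / 2 * (n * s2) + e / 2 * EE n (fun w => ‖WS t ξ w‖ ^ 2))) ≤
        m * (e⁻¹ * (n * (e ^ 2 * s2)) + (e / 2 * (n * s2) + e / 2 * (n * s2))) := by
      have := hvη n
      have := hvξ n
      gcongr
    have h10 : (m : ℝ) * (e⁻¹ * (n * (e ^ 2 * s2)) + (e / 2 * (n * s2) + e / 2 * (n * s2))) =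
        (1 / 4) * (n * s2) := by
      have h11 : e⁻¹ * (n * (e ^ 2 * s2)) = e * (n * s2) := by
        field_simp
      rw [h11]
      calc _ = 2 * (m * e) * (n * s2) := by ring
        _ = _ := by rw [hme]; ring
    linarith
  obtain ⟨n, hn⟩ := exists_nat_gt (m * C / (3 / 4 * s2))
  have h7 := hmean n
  rw [div_lt_iff₀ (by positivity)] at hn
  linarith

end Pool.Agent.H79.BTL
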